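import Mathlib

/-!
No isomorphic embedding of `C[1, ω^ω]` into itself has an image doing stable phase retrieval.

If `E = T (C[1, ω^ω])` does `C`-SPR, take `f ∈ E` of norm one vanishing at the point `ω^ω` and let
`K = {|f| ≥ 1 / C}`, a closed set of finite Cantor-Bendixson rank `≤ n`. Stable phase retrieval says
that restriction to `K` is bounded below by `1 / C` on `E`. But along a suitable branch of a tree of
clopen sets of height `m`, the sum of the `m` images of indicator functions is bounded on `K` by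
`‖T‖ n + 1`, while the sum of the indicator functions has norm `m`.
-/

set_option autoImplicit false

namespace Pool.Agent.Results.MP_abea68_an.NoSPREmbedding

open Filter Topology Order

/-! ### Statement -/

/-- The interval `[1, ω ^ ω]` of ordinals, with the order topology. -/
abbrev W : Type 1 := Set.Icc (1 : Ordinal.{0}) (Ordinal.omega0 ^ Ordinal.omega0)

/-- `E` does `C`-stable phase retrieval in `C(W)`. -/
def DoesSPR (C : ℝ) (E : Submodule ℝ C(W, ℝ)) : Prop :=
  ∀ f ∈ E, ∀ g ∈ E, min ‖f - g‖ ‖f + g‖ ≤ C * ‖|f| - |g|‖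

/-! ### Trees of clopen sets -/

section trees

variable {X : Type*} [TopologicalSpace X]

/-- the indicator function of a clopen set -/
noncomputable def ind (A : Set X) (hA : IsClopen A) : C(X, ℝ) :=
  ⟨A.indicator (fun _ => (1 : ℝ)), continuous_const.indicator (by
    intro a ha
    rw [hA.frontier_eq] at ha
    exact absurd ha (Set.notMem_empty a))⟩

theorem ind_of_mem {A : Set X} {hA : IsClopen A} {x : X} (h : x ∈ A) : ind A hA x = 1 :=
  Set.indicator_of_mem h (fun _ => (1 : ℝ))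

theorem ind_of_notMem {A : Set X} {hA : IsClopen A} {x : X} (h : x ∉ A) : ind A hA x = 0 :=
  Set.indicator_of_notMem h (fun _ => (1 : ℝ))

/-- `A` contains a tree of height `m` -/
def HasTree : ℕ → Set X → Prop
  | 0, A => IsClopen A ∧ A.Nonempty
  | m + 1, A => IsClopen A ∧ ∃ B : ℕ → Set X, (∀ k, B k ⊆ A) ∧ (∀ j k, j ≠ k → Disjoint (B j) (B k)) ∧
      ∀ k, HasTree m (B k)

theorem HasTree.clopen {m : ℕ} {A : Set X} (h : HasTree m A) : IsClopen A := by
  cases m with
  | zero => exact h.1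
  | succ m => exact h.1

variable [CompactSpace X]

theorem norm_ind_le (A : Set X) (hA : IsClopen A) : ‖ind A hA‖ ≤ 1 := by
  rw [ContinuousMap.norm_le _ zero_le_one]
  intro x
  by_cases h : x ∈ A
  · rw [ind_of_mem h]; simp
  · rw [ind_of_notMem h]; simp

theorem sum_le (T : C(X, ℝ) →L[ℝ] C(X, ℝ)) (B : ℕ → Set X) (hB : ∀ k, IsClopen (B k))
    (hd : ∀ j k, j ≠ k → Disjoint (B j) (B k)) (t : X) (N : ℕ) :
    ∑ k ∈ Finset.range N, |T (ind (B k) (hB k)) t| ≤ ‖T‖ := by
  classical
  let e : ℕ → ℝ := fun k => SignType.sign (T (ind (B k) (hB k)) t)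
  let g : C(X, ℝ) := ∑ k ∈ Finset.range N, e k • ind (B k) (hB k)
  have he : ∀ k, |e k| ≤ 1 := by
    intro k
    simp only [e]
    rcases lt_trichotomy (T (ind (B k) (hB k)) t) 0 with h | h | h
    · rw [sign_neg h]; simp
    · rw [h]; simp
    · rw [sign_pos h]; simp
  have hg : ‖g‖ ≤ 1 := by
    rw [ContinuousMap.norm_le _ zero_le_one]
    intro x
    have hgx : g x = ∑ k ∈ Finset.range N, e k * ind (B k) (hB k) x := by
      simp [g, ContinuousMap.sum_apply]
    rw [hgx]
    by_cases h : ∃ j ∈ Finset.range N, x ∈ B j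
    · obtain ⟨j, hj, hx⟩ := h
      rw [Finset.sum_eq_single_of_mem j hj, ind_of_mem hx, mul_one]
      · exact he j
      · intro k _ hk
        have : x ∉ B k := fun h' => (Set.disjoint_left.1 (hd k j hk)) h' hx
        rw [ind_of_notMem this, mul_zero]
    · push Not at h
      rw [Finset.sum_eq_zero]
      · simp
      · intro k hk
        rw [ind_of_notMem (h k hk), mul_zero]
  have h1 : T g t = ∑ k ∈ Finset.range N, |T (ind (B k) (hB k)) t| := by
    simp only [g, map_sum, map_smul, ContinuousMap.sum_apply, ContinuousMap.smul_apply, smul_eq_mul]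
    apply Finset.sum_congr rfl
    intro k _
    simp only [e]
    exact sign_mul_self _
  rw [← h1]
  calc T g t ≤ |T g t| := le_abs_self _
    _ ≤ ‖T g‖ := (T g).norm_coe_le_norm t
    _ ≤ ‖T‖ * ‖g‖ := T.le_opNorm g
    _ ≤ ‖T‖ * 1 := by gcongr
    _ = ‖T‖ := mul_one _

theorem exists_small (T : C(X, ℝ) →L[ℝ] C(X, ℝ)) (B : ℕ → Set X) (hB : ∀ k, IsClopen (B k))
    (hd : ∀ j k, j ≠ k → Disjoint (B j) (B k)) {F : Set X} (hF : F.Finite) {ε : ℝ} (hε : 0 < ε) :
    ∃ k, ∀ t ∈ F, |T (ind (B k) (hB k)) t| < ε := by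
  by_contra hc
  push Not at hc
  obtain ⟨N, hN⟩ := exists_nat_gt ((hF.toFinset.card : ℝ) * ‖T‖ / ε)
  rw [div_lt_iff₀ hε] at hN
  have h1 : (N : ℝ) * ε ≤ ∑ k ∈ Finset.range N, ∑ t ∈ hF.toFinset, |T (ind (B k) (hB k)) t| := by
    have : (N : ℝ) * ε = ∑ k ∈ Finset.range N, ε := by simp
    rw [this]
    apply Finset.sum_le_sum
    intro k _
    obtain ⟨t, ht, hk⟩ := hc k
    exact hk.trans (Finset.single_le_sum (f := fun t => |T (ind (B k) (hB k)) t|)
      (fun _ _ => abs_nonneg _) (hF.mem_toFinset.2 ht))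
  rw [Finset.sum_comm] at h1
  have h2 : ∑ t ∈ hF.toFinset, ∑ k ∈ Finset.range N, |T (ind (B k) (hB k)) t| ≤
      (hF.toFinset.card : ℝ) * ‖T‖ := by
    refine (Finset.sum_le_card_nsmul _ _ ‖T‖ fun t _ => sum_le T B hB hd t N).trans ?_
    rw [nsmul_eq_mul]
  linarith

/-- Selection of a branch. -/
theorem branch (T : C(X, ℝ) →L[ℝ] C(X, ℝ)) (K : Set X) (n : ℕ) (L : ℕ → Set X)
    (hL0 : L 0 = Set.univ)
    (hL : ∀ j, ∀ F : Set X, IsClosed F → F ⊆ K → F ∩ L (j + 1) = ∅ → (F ∩ L j).Finite)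
    {ε : ℝ} (hε : 0 < ε) : ∀ m : ℕ, ∀ A : Set X, HasTree m A → ∀ (g : C(X, ℝ)) (c b : ℝ)
      (S : ℕ → Set X), (∀ x ∈ A, c ≤ g x) → (∀ s, IsClosed (S s)) → S 0 = K → (∀ s, S s ⊆ K) →
      (∀ s ≤ n + 1, S s ∩ L (n + 1 - s) = ∅) →
      (∀ t ∈ K, ∀ s, t ∉ S (s + 1) → |T g t| ≤ ‖T‖ * s + b) →
      ∃ g' : C(X, ℝ), (∃ x, c + m ≤ g' x) ∧ ∀ t ∈ K, |T g' t| ≤ ‖T‖ * n + b + m * ε := by
  intro m
  induction m with
  | zero =>
    intro A hA g c b S hgA _ _ _ hSL hb
    obtain ⟨x, hx⟩ := hA.2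
    refine ⟨g, ⟨x, by simpa using hgA x hx⟩, ?_⟩
    intro t ht
    have h1 := hSL (n + 1) le_rfl
    rw [Nat.sub_self, hL0, Set.inter_univ] at h1
    have h2 := hb t ht n (by rw [h1]; exact Set.notMem_empty t)
    simpa using h2
  | succ m ih =>
    intro A hA g c b S hgA hSc hS0 hSK hSL hb
    obtain ⟨hAc, B, hBA, hBd, hBt⟩ := hA
    have hBc : ∀ k, IsClopen (B k) := fun k => (hBt k).clopen
    let F : Set X := ⋃ s ∈ Finset.range (n + 1), S s ∩ L (n - s)
    have hF : F.Finite := by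
      apply Set.Finite.biUnion (Finset.finite_toSet _)
      intro s hs
      have hs' : s ≤ n := Nat.lt_succ_iff.1 (Finset.mem_range.1 hs)
      apply hL (n - s) (S s) (hSc s) (hSK s)
      have := hSL s (hs'.trans (Nat.le_succ n))
      rwa [Nat.sub_add_comm hs'] at this
    obtain ⟨k, hk⟩ := exists_small T B hBc hBd hF hε
    set y := T (ind (B k) (hBc k)) with hy
    let S' : ℕ → Set X := fun s => Nat.casesOn s K (fun s => S (s + 1) ∪ (S s ∩ {t | ε ≤ |y t|}))
    have hy1 : ∀ t, |y t| ≤ ‖T‖ := by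
      intro t
      calc |y t| ≤ ‖y‖ := y.norm_coe_le_norm t
        _ ≤ ‖T‖ * ‖ind (B k) (hBc k)‖ := T.le_opNorm _
        _ ≤ ‖T‖ * 1 := by gcongr; exact norm_ind_le _ _
        _ = ‖T‖ := mul_one _
    have hclosed : ∀ s, IsClosed (S' s) := by
      intro s
      cases s with
      | zero =>
        change IsClosed K
        rw [← hS0]; exact hSc 0
      | succ s =>
        change IsClosed (S (s + 1) ∪ (S s ∩ {t | ε ≤ |y t|}))
        exact (hSc _).union ((hSc _).inter (isClosed_le continuous_const y.continuous.abs))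
    obtain ⟨g', ⟨x, hx⟩, hg'⟩ := ih (B k) (hBt k) (g + ind (B k) (hBc k)) (c + 1) (b + ε) S' (by
        intro x hx
        rw [ContinuousMap.add_apply, ind_of_mem hx]
        have := hgA x (hBA k hx)
        linarith) hclosed rfl (by
        intro s
        cases s with
        | zero => exact subset_rfl
        | succ s =>
          change S (s + 1) ∪ (S s ∩ {t | ε ≤ |y t|}) ⊆ K
          exact Set.union_subset (hSK _) (Set.inter_subset_left.trans (hSK _))) (by
        intro s hs
        cases s with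
        | zero =>
          change K ∩ L (n + 1 - 0) = ∅
          rw [← hS0]; exact hSL 0 hs
        | succ s =>
          change (S (s + 1) ∪ (S s ∩ {t | ε ≤ |y t|})) ∩ L (n + 1 - (s + 1)) = ∅
          rw [Set.union_inter_distrib_right, hSL (s + 1) hs, Set.empty_union,
            Set.eq_empty_iff_forall_notMem]
          rintro t ⟨⟨h1, h2⟩, h3⟩
          have h4 : t ∈ F := by
            simp only [F, Set.mem_iUnion]
            refine ⟨s, Finset.mem_range.2 (by omega), h1, ?_⟩
            rwa [Nat.add_sub_add_right] at h3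
          exact absurd (hk t h4) (not_lt.2 h2)) (by
        intro t ht s hs
        have hs' : t ∉ S (s + 1) ∪ (S s ∩ {t | ε ≤ |y t|}) := hs
        rw [Set.mem_union, not_or] at hs'
        obtain ⟨h1, h2⟩ := hs'
        have h3 := hb t ht s h1
        have h4 : T (g + ind (B k) (hBc k)) t = T g t + y t := by
          rw [map_add, ContinuousMap.add_apply]
        rw [h4]
        by_cases h5 : ε ≤ |y t|
        · have h6 : t ∉ S s := fun h => h2 ⟨h, h5⟩
          cases s with
          | zero => exact absurd (hS0 ▸ ht) h6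
          | succ s =>
            have h7 := hb t ht s h6
            have h8 := hy1 t
            have h9 := abs_add_le (T g t) (y t)
            push_cast
            linarith
        · have h9 := abs_add_le (T g t) (y t)
          linarith [not_le.1 h5])
    refine ⟨g', ⟨x, ?_⟩, ?_⟩
    · push_cast; linarith
    · intro t ht
      have := hg' t ht
      push_cast
      linarith

end trees

/-! ### The interval of ordinals -/

theorem clopen_Ioc (a b : Ordinal.{0}) : IsClopen {x : W | a < x.1 ∧ x.1 ≤ b} := by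
  constructor
  · have : {x : W | a < x.1 ∧ x.1 ≤ b} = {x : W | succ a ≤ x.1} ∩ {x : W | x.1 ≤ b} := by
      ext x; simp
    rw [this]
    exact (isClosed_le continuous_const continuous_subtype_val).inter
      (isClosed_le continuous_subtype_val continuous_const)
  · have : {x : W | a < x.1 ∧ x.1 ≤ b} = {x : W | a < x.1} ∩ {x : W | x.1 < succ b} := by
      ext x; simp
    rw [this]
    exact (isOpen_lt continuous_const continuous_subtype_val).inter
      (isOpen_lt continuous_subtype_val continuous_const)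

theorem hasTree_Ioc : ∀ m : ℕ, ∀ a : Ordinal.{0},
    a + Ordinal.omega0 ^ m ≤ Ordinal.omega0 ^ Ordinal.omega0 →
    HasTree m {x : W | a < x.1 ∧ x.1 ≤ a + Ordinal.omega0 ^ m} := by
  intro m
  induction m with
  | zero =>
    intro a ha
    rw [pow_zero] at ha
    refine ⟨clopen_Ioc _ _, ⟨⟨a + 1, ?_, ha⟩, ?_, ?_⟩⟩
    · exact le_add_self
    · exact Order.lt_add_one_iff.2 le_rfl
    · rw [pow_zero]
  | succ m ih =>
    intro a ha
    have e1 : ∀ k : ℕ, a + Ordinal.omega0 ^ m * (k : Ordinal) + Ordinal.omega0 ^ m =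
        a + Ordinal.omega0 ^ m * ((k + 1 : ℕ) : Ordinal) := by
      intro k
      rw [Nat.cast_add, Nat.cast_one, mul_add_one, add_assoc]
    have e2 : ∀ k : ℕ, a + Ordinal.omega0 ^ m * (k : Ordinal) ≤ a + Ordinal.omega0 ^ (m + 1) := by
      intro k
      rw [pow_succ]
      gcongr
      exact (Ordinal.natCast_lt_omega0 k).le
    refine ⟨clopen_Ioc _ _, fun k => {x : W | a + Ordinal.omega0 ^ m * (k : Ordinal) < x.1 ∧
      x.1 ≤ a + Ordinal.omega0 ^ m * (k : Ordinal) + Ordinal.omega0 ^ m}, ?_, ?_, ?_⟩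
    · rintro k x ⟨h1, h2⟩
      refine ⟨lt_of_le_of_lt le_self_add h1, h2.trans ?_⟩
      rw [e1]; exact e2 _
    · have key : ∀ j k : ℕ, j < k → Disjoint
          {x : W | a + Ordinal.omega0 ^ m * (j : Ordinal) < x.1 ∧
            x.1 ≤ a + Ordinal.omega0 ^ m * (j : Ordinal) + Ordinal.omega0 ^ m}
          {x : W | a + Ordinal.omega0 ^ m * (k : Ordinal) < x.1 ∧
            x.1 ≤ a + Ordinal.omega0 ^ m * (k : Ordinal) + Ordinal.omega0 ^ m} := by
        intro j k hjk
        rw [Set.disjoint_left]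
        rintro x ⟨-, h1⟩ ⟨h2, -⟩
        rw [e1] at h1
        have : a + Ordinal.omega0 ^ m * ((j + 1 : ℕ) : Ordinal) ≤
            a + Ordinal.omega0 ^ m * (k : Ordinal) := by
          gcongr
          exact hjk
        exact absurd (lt_of_le_of_lt (h1.trans this) h2) (lt_irrefl _)
      intro j k hjk
      rcases lt_or_gt_of_ne hjk with h | h
      · exact key j k h
      · exact (key k j h).symm
    · intro k
      apply ih
      rw [e1]
      exact (e2 _).trans ha

theorem exists_strictMono {s : Set Ordinal.{0}} (hs : s.Infinite) :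
    ∃ t : ℕ → Ordinal.{0}, StrictMono t ∧ ∀ i, t i ∈ s := by
  let f : ℕ → Ordinal.{0} := fun n => (hs.natEmbedding s n).1
  have hf : Function.Injective f := fun a b h => (hs.natEmbedding s).injective (Subtype.ext h)
  obtain ⟨g, h | h⟩ := exists_increasing_or_nonincreasing_subseq (· < ·) f
  · exact ⟨fun n => f (g n), fun m n hmn => h m n hmn, fun n => (hs.natEmbedding s (g n)).2⟩
  · exfalso
    have hanti : StrictAnti (fun n => f (g n)) := by
      intro m n hmn
      refine lt_of_le_of_ne (not_lt.1 (h m n hmn)) ?_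
      intro e
      exact hmn.ne' (g.injective (hf e))
    exact (not_strictAnti_of_wellFoundedLT _) hanti

theorem rank_step (j : ℕ) (F : Set W) (hF : IsClosed F)
    (h : F ∩ {x : W | Ordinal.omega0 ^ (j + 1) ∣ x.1} = ∅) :
    (F ∩ {x : W | Ordinal.omega0 ^ j ∣ x.1}).Finite := by
  by_contra hinf
  have hinf' : (Subtype.val '' (F ∩ {x : W | Ordinal.omega0 ^ j ∣ x.1})).Infinite :=
    Set.Infinite.image Subtype.val_injective.injOn hinf
  obtain ⟨t, ht, hts⟩ := exists_strictMono hinf'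
  choose x hx hxt using hts
  have hbd : BddAbove (Set.range t) := by
    refine ⟨Ordinal.omega0 ^ Ordinal.omega0, ?_⟩
    rintro _ ⟨i, rfl⟩
    rw [← hxt i]; exact (x i).2.2
  have hlim : Tendsto t atTop (𝓝 (⨆ i, t i)) := tendsto_atTop_ciSup ht.monotone hbd
  have hle : (⨆ i, t i) ≤ Ordinal.omega0 ^ Ordinal.omega0 := ciSup_le' fun i => by
    rw [← hxt i]; exact (x i).2.2
  have hge : 1 ≤ ⨆ i, t i := by
    refine le_trans ?_ (le_ciSup hbd 0)
    rw [← hxt 0]; exact (x 0).2.1
  have hmem : (⟨⨆ i, t i, hge, hle⟩ : W) ∈ F := by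
    have h1 : Tendsto x atTop (𝓝 (⟨⨆ i, t i, hge, hle⟩ : W)) := by
      rw [tendsto_subtype_rng]
      simpa only [hxt] using hlim
    exact hF.mem_of_tendsto h1 (Eventually.of_forall fun i => (hx i).1)
  have hdvd : Ordinal.omega0 ^ (j + 1) ∣ ⨆ i, t i := by
    have h1 : ∀ i, ∃ s, t i = Ordinal.omega0 ^ j * s := by
      intro i
      have := (hx i).2
      rw [Set.mem_ofPred_eq, hxt i] at this
      exact this
    choose s hs using h1
    have hpos : (0 : Ordinal) < Ordinal.omega0 ^ j := pow_pos Ordinal.omega0_pos j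
    have hsm : StrictMono s := by
      intro a b hab
      have := ht hab
      rw [hs, hs] at this
      exact lt_of_mul_lt_mul_left' this
    have hsb : BddAbove (Set.range s) := by
      refine ⟨Ordinal.omega0 ^ Ordinal.omega0, ?_⟩
      rintro _ ⟨i, rfl⟩
      have h1 : s i ≤ t i := by
        rw [hs i]; exact Ordinal.le_mul_right _ hpos
      refine h1.trans ?_
      rw [← hxt i]; exact (x i).2.2
    have h2 : (⨆ i, t i) = Ordinal.omega0 ^ j * ⨆ i, s i := by
      have := (Ordinal.isNormal_mul_right hpos).map_iSup hsb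
      rw [this]
      congr 1
      funext i
      exact hs i
    have h3 : Order.IsSuccPrelimit (⨆ i, s i) := by
      intro a ha
      obtain ⟨i, hi⟩ := exists_lt_of_lt_ciSup ha.lt
      have h5 : s i < ⨆ i, s i := lt_of_lt_of_le (hsm (Nat.lt_succ_self i)) (le_ciSup hsb (i + 1))
      exact ha.2 hi h5
    have h4 : Ordinal.omega0 ∣ ⨆ i, s i := Ordinal.isSuccPrelimit_iff_omega0_dvd.1 h3
    rw [h2, pow_succ]
    exact mul_dvd_mul_left _ h4
  have : (⟨⨆ i, t i, hge, hle⟩ : W) ∈ F ∩ {x : W | Ordinal.omega0 ^ (j + 1) ∣ x.1} :=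
    ⟨hmem, hdvd⟩
  rw [h] at this
  exact this

/-- A closed set not containing the last point has finite rank. -/
theorem exists_rank (K : Set W) (hK : IsClosed K)
    (htop : ∀ x ∈ K, x.1 ≠ Ordinal.omega0 ^ Ordinal.omega0) :
    ∃ n : ℕ, K ∩ {x : W | Ordinal.omega0 ^ (n + 1) ∣ x.1} = ∅ := by
  rcases K.eq_empty_or_nonempty with h | h
  · exact ⟨0, by rw [h, Set.empty_inter]⟩
  obtain ⟨x, hx, hmax⟩ := hK.isCompact.exists_isMaxOn h continuous_subtype_val.continuousOn
  have hlt : x.1 < Ordinal.omega0 ^ Ordinal.omega0 := lt_of_le_of_ne x.2.2 (htop x hx)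
  obtain ⟨c, hc, hxc⟩ := (Ordinal.lt_opow_of_isSuccLimit Ordinal.omega0_ne_zero
    Ordinal.isSuccLimit_omega0).1 hlt
  obtain ⟨n, rfl⟩ := Ordinal.lt_omega0.1 hc
  rw [Ordinal.opow_natCast] at hxc
  refine ⟨n, ?_⟩
  rw [Set.eq_empty_iff_forall_notMem]
  rintro y ⟨hy, hyd⟩
  have h1 : y.1 ≤ x.1 := hmax hy
  have h2 : Ordinal.omega0 ^ (n + 1) ≤ y.1 :=
    Ordinal.le_of_dvd (fun h0 => by have := y.2.1; rw [h0] at this; simp at this) hyd
  have h3 : Ordinal.omega0 ^ n ≤ Ordinal.omega0 ^ (n + 1) :=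
    pow_le_pow_right₀ Ordinal.one_lt_omega0.le (Nat.le_succ n)
  exact absurd (lt_of_le_of_lt (h3.trans (h2.trans h1)) hxc) (lt_irrefl _)

/-! ### The main argument -/

theorem real_key (a b : ℝ) : |(|a + b| - |a - b|)| ≤ 2 * min |a| |b| := by
  rcases le_total |a| |b| with h | h
  · rw [min_eq_left h]
    have h1 := abs_abs_sub_abs_le (a + b) (-(a - b))
    rw [abs_neg] at h1
    have h2 : a + b - -(a - b) = 2 * a := by ring
    rw [h2, abs_mul, abs_two] at h1
    exact h1
  · rw [min_eq_right h]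
    have h1 := abs_abs_sub_abs_le (a + b) (a - b)
    have h2 : a + b - (a - b) = 2 * b := by ring
    rw [h2, abs_mul, abs_two] at h1
    exact h1

theorem one_le_top : (1 : Ordinal.{0}) ≤ Ordinal.omega0 ^ Ordinal.omega0 := by
  rw [Order.one_le_iff_pos]
  exact Ordinal.opow_pos _ Ordinal.omega0_pos

/-- the last point -/
noncomputable def top : W := ⟨Ordinal.omega0 ^ Ordinal.omega0, one_le_top, le_rfl⟩

/-- the first point -/
noncomputable def one : W := ⟨1, le_rfl, one_le_top⟩

theorem one_lt_top : (1 : Ordinal.{0}) < Ordinal.omega0 ^ Ordinal.omega0 := by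
  have h : (1 : Ordinal.{0}) < Ordinal.omega0 ^ (1 : Ordinal.{0}) := by
    rw [Ordinal.opow_one]; exact Ordinal.one_lt_omega0
  exact lt_of_lt_of_le h (Ordinal.opow_le_opow_right Ordinal.omega0_pos
    Ordinal.one_lt_omega0.le)

theorem spr_pair {C : ℝ} {E : Submodule ℝ C(W, ℝ)} (hE : DoesSPR C E) (hC : 0 < C)
    {f g : C(W, ℝ)} (hf : f ∈ E) (hg : g ∈ E) (hf1 : ‖f‖ = 1) (hg1 : ‖g‖ = 1) :
    ∃ t, 1 / C ≤ |f t| ∧ 1 / C ≤ |g t| := by
  have h := hE (f + g) (E.add_mem hf hg) (f - g) (E.sub_mem hf hg)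
  have e1 : f + g - (f - g) = (2 : ℝ) • g := by
    rw [two_smul]; abel
  have e2 : f + g + (f - g) = (2 : ℝ) • f := by
    rw [two_smul]; abel
  rw [e1, e2, norm_smul, norm_smul, hf1, hg1, min_self] at h
  have h2 : ‖(2 : ℝ)‖ * 1 = 2 := by norm_num
  rw [h2] at h
  by_contra hc
  push Not at hc
  have hpt : ∀ t, |(|f + g| - |f - g|) t| ≤ 2 * min |f t| |g t| := fun t => real_key (f t) (g t)
  obtain ⟨t, -, ht⟩ := isCompact_univ.exists_isMaxOn
    (⟨one, Set.mem_univ _⟩ : (Set.univ : Set W).Nonempty)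
    (|f + g| - |f - g|).continuous.abs.continuousOn
  have h3 : ‖|f + g| - |f - g|‖ ≤ |(|f + g| - |f - g|) t| := by
    rw [ContinuousMap.norm_le _ (abs_nonneg _)]
    intro x
    exact ht (Set.mem_univ x)
  have h3' := h3.trans (hpt t)
  have h4 : min |f t| |g t| < 1 / C := by
    rcases lt_or_ge (|f t|) (1 / C) with h5 | h5
    · exact lt_of_le_of_lt (min_le_left _ _) h5
    · exact lt_of_le_of_lt (min_le_right _ _) (hc t h5)
  have h5 : 2 ≤ C * (2 * min |f t| |g t|) := h.trans (by gcongr)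
  have h6 : C * (2 * min |f t| |g t|) < C * (2 * (1 / C)) := by gcongr
  have h7 : C * (2 * (1 / C)) = 2 := by field_simp
  linarith

theorem main (T : C(W, ℝ) →L[ℝ] C(W, ℝ)) {c : ℝ} (hc : 0 < c) (hT : ∀ g, c * ‖g‖ ≤ ‖T g‖)
    (C : ℝ) : ¬ DoesSPR C (LinearMap.range T.toLinearMap) := by
  intro hE
  have hinj : ∀ g, g ≠ 0 → T g ≠ 0 := by
    intro g hg h0
    have h1 := hT g
    rw [h0, norm_zero] at h1
    have h2 : 0 < c * ‖g‖ := mul_pos hc (norm_pos_iff.2 hg)
    linarith
  have hmem : ∀ g, T g ∈ LinearMap.range T.toLinearMap := fun g => ⟨g, rfl⟩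
  have hone : (1 : C(W, ℝ)) ≠ 0 := by
    intro h
    have := congrArg (fun f : C(W, ℝ) => f one) h
    simp at this
  have hC : 0 < C := by
    have h1 := hE (T 1) (hmem 1) 0 (Submodule.zero_mem _)
    rw [sub_zero, add_zero, min_self, abs_zero, sub_zero] at h1
    have h2 : 0 < ‖T 1‖ := norm_pos_iff.2 (hinj 1 hone)
    by_contra h3
    have h4 : C * ‖|T 1|‖ ≤ 0 := mul_nonpos_of_nonpos_of_nonneg (not_lt.1 h3) (norm_nonneg _)
    linarith
  -- an element of the range vanishing at the last point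
  obtain ⟨g0, hg0, hg0t⟩ : ∃ g0 : C(W, ℝ), g0 ≠ 0 ∧ T g0 top = 0 := by
    by_cases h : T 1 top = 0
    · exact ⟨1, hone, h⟩
    · let hh : C(W, ℝ) := ind {x : W | 0 < x.1 ∧ x.1 ≤ 1} (clopen_Ioc 0 1)
      refine ⟨T 1 top • hh - T hh top • 1, ?_, ?_⟩
      · intro h0
        have e1 := congrArg (fun f : C(W, ℝ) => f one) h0
        have e2 := congrArg (fun f : C(W, ℝ) => f top) h0
        have h1 : hh one = 1 := ind_of_mem ⟨zero_lt_one, le_rfl⟩
        have h2 : hh top = 0 := ind_of_notMem (fun h' => absurd h'.2 (not_le.2 one_lt_top))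
        simp only [ContinuousMap.sub_apply, ContinuousMap.smul_apply, h1, h2, smul_eq_mul,
          ContinuousMap.one_apply, ContinuousMap.zero_apply, mul_one, mul_zero, zero_sub,
          neg_eq_zero] at e1 e2
        rw [e2, sub_zero] at e1
        exact h e1
      · rw [map_sub, map_smul, map_smul, ContinuousMap.sub_apply, ContinuousMap.smul_apply,
          ContinuousMap.smul_apply, smul_eq_mul, smul_eq_mul]
        ring
  have hf0 : 0 < ‖T g0‖ := norm_pos_iff.2 (hinj g0 hg0)
  let f : C(W, ℝ) := ‖T g0‖⁻¹ • T g0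
  have hf : f ∈ LinearMap.range T.toLinearMap := Submodule.smul_mem _ _ (hmem g0)
  have hf1 : ‖f‖ = 1 := by
    rw [norm_smul, norm_inv, norm_norm, inv_mul_cancel₀ hf0.ne']
  have hft : f top = 0 := by
    change ‖T g0‖⁻¹ • T g0 top = 0
    rw [hg0t, smul_zero]
  let K : Set W := {t | 1 / C ≤ |f t|}
  have hK : IsClosed K := isClosed_le continuous_const f.continuous.abs
  have key : ∀ g : C(W, ℝ), T g ≠ 0 → ∃ t ∈ K, ‖T g‖ / C ≤ |T g t| := by
    intro g hg
    have hg0 : 0 < ‖T g‖ := norm_pos_iff.2 hg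
    have hn : ‖‖T g‖⁻¹ • T g‖ = 1 := by
      rw [norm_smul, norm_inv, norm_norm, inv_mul_cancel₀ hg0.ne']
    obtain ⟨t, h1, h2⟩ := spr_pair hE hC hf (Submodule.smul_mem _ ‖T g‖⁻¹ (hmem g)) hf1 hn
    refine ⟨t, h1, ?_⟩
    rw [ContinuousMap.smul_apply, smul_eq_mul, abs_mul, abs_inv, abs_norm, inv_mul_eq_div,
      div_le_div_iff₀ hC hg0, one_mul] at h2
    rw [div_le_iff₀ hC]
    exact h2
  obtain ⟨n, hn⟩ := exists_rank K hK (by
    intro x hx h
    have : x = top := Subtype.ext h
    rw [this] at hx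
    have h1 : 1 / C ≤ |f top| := hx
    rw [hft, abs_zero] at h1
    have : 0 < 1 / C := by positivity
    linarith)
  obtain ⟨m, hm⟩ := exists_nat_gt ((‖T‖ * n + 1) * C / c)
  rw [div_lt_iff₀ hc] at hm
  have hm0 : (0 : ℝ) < m := by
    have : (0 : ℝ) ≤ (‖T‖ * n + 1) * C := by positivity
    by_contra h
    have : (m : ℝ) * c ≤ 0 := mul_nonpos_of_nonpos_of_nonneg (not_lt.1 h) hc.le
    linarith
  have hpow : Ordinal.omega0 ^ m ≤ Ordinal.omega0 ^ Ordinal.omega0 := by
    rw [← Ordinal.opow_natCast]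
    exact Ordinal.opow_le_opow_right Ordinal.omega0_pos (Ordinal.natCast_lt_omega0 m).le
  have hε : (0 : ℝ) < 1 / (m + 1) := by positivity
  obtain ⟨g, ⟨x, hx⟩, hg⟩ := branch T K n (fun j => {x : W | Ordinal.omega0 ^ j ∣ x.1})
    (by ext x; simp) (fun j F hF _ h => rank_step j F hF h) hε m
    {x : W | 0 < x.1 ∧ x.1 ≤ 0 + Ordinal.omega0 ^ m} (hasTree_Ioc m 0 (by rwa [zero_add]))
    0 0 0 (fun s => Nat.casesOn s K (fun _ => ∅)) (by intro x _; simp)
    (by
      intro s
      cases s with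
      | zero => exact hK
      | succ s => exact isClosed_empty) rfl
    (by
      intro s
      cases s with
      | zero => exact subset_rfl
      | succ s => exact Set.empty_subset _)
    (by
      intro s _
      cases s with
      | zero => exact hn
      | succ s => exact Set.empty_inter _)
    (by
      intro t _ s _
      rw [map_zero, ContinuousMap.zero_apply, abs_zero]
      positivity)
  have h1 : (m : ℝ) ≤ ‖g‖ := by
    rw [zero_add] at hx
    exact hx.trans ((le_abs_self _).trans (g.norm_coe_le_norm x))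
  have h2 : c * m ≤ ‖T g‖ := (by gcongr : c * (m : ℝ) ≤ c * ‖g‖).trans (hT g)
  have h3 : T g ≠ 0 := by
    intro h
    rw [h, norm_zero] at h2
    have : 0 < c * m := mul_pos hc hm0
    linarith
  obtain ⟨t, ht, h4⟩ := key g h3
  have h5 := hg t ht
  have h6 : (m : ℝ) * (1 / (m + 1)) ≤ 1 := by
    rw [mul_one_div, div_le_one (by positivity)]
    linarith
  rw [div_le_iff₀ hC] at h4
  have h7 : |T g t| * C ≤ (‖T‖ * n + 1) * C := by
    gcongr
    linarith
  linarith

/-- **Negative answer to Q1.** No linear isometric embedding of `C[1, ω^ω]` into itself has an image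
doing stable phase retrieval; more generally, no linear isomorphic embedding of `C[1, ω^ω]` into
itself has such an image. -/
theorem result :
    (¬ ∃ T : C(W, ℝ) →ₗᵢ[ℝ] C(W, ℝ), ∃ C : ℝ, DoesSPR C (LinearMap.range T.toLinearMap)) ∧
    ∀ T : C(W, ℝ) →L[ℝ] C(W, ℝ), (∃ c > 0, ∀ g, c * ‖g‖ ≤ ‖T g‖) →
      ∀ C : ℝ, ¬ DoesSPR C (LinearMap.range T.toLinearMap) := by
  refine ⟨?_, fun T ⟨c, hc, hT⟩ C => main T hc hT C⟩
  rintro ⟨T, C, h⟩
  refine main T.toContinuousLinearMap zero_lt_one (fun g => ?_) C h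
  rw [one_mul]
  exact (T.norm_map g).ge

end Pool.Agent.Results.MP_abea68_an.NoSPREmbedding
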